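import Pool.Agent.KBir.Local

/-!
# Keller maps agreeing on the coordinate cross: the birational case

Let `F`, `G` be Keller maps of `ℂ²` which agree on the cross `{xy = 0}`, and suppose that `F = G ∘ v`
for a dominant rational self-map `v` of the plane, regular at the origin and fixing it. If `v` is
birational, or if no curve except the two axes is mapped by `v` into one of the axes, then `v` is the
identity and `F = G`. The rational map `v` is given by its comorphism `φ`, an endomorphism of the
field of rational functions over `ℂ`.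
-/

set_option autoImplicit false

open MvPolynomial

namespace Pool.Agent.Results.MP_631557_ag.BirationalRigidity

/-- The field of rational functions in two variables. -/
abbrev RatFun := FractionRing (MvPolynomial (Fin 2) ℂ)

/-- For a rational map with components `v 0`, `v 1` and an irreducible polynomial `π`: the curve
`π = 0` is mapped into the axis `{X s = 0}`, that is, `v s` is zero on the curve and the other
component `v (s + 1)` has no pole along it (both are quotients whose denominator is not divisible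
by `π`, and the numerator of `v s` is divisible by `π`). -/
def MapsIntoAxis (v : Fin 2 → RatFun) (π : MvPolynomial (Fin 2) ℂ) (s : Fin 2) : Prop :=
  (∃ a b : MvPolynomial (Fin 2) ℂ, ¬ π ∣ b ∧
    v s * algebraMap (MvPolynomial (Fin 2) ℂ) RatFun b =
      algebraMap (MvPolynomial (Fin 2) ℂ) RatFun (π * a)) ∧
  (∃ a b : MvPolynomial (Fin 2) ℂ, ¬ π ∣ b ∧
    v (s + 1) * algebraMap (MvPolynomial (Fin 2) ℂ) RatFun b =
      algebraMap (MvPolynomial (Fin 2) ℂ) RatFun a)

theorem result (F G : Fin 2 → MvPolynomial (Fin 2) ℂ)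
    (hF : pderiv 0 (F 0) * pderiv 1 (F 1) - pderiv 1 (F 0) * pderiv 0 (F 1) = 1)
    (hG : pderiv 0 (G 0) * pderiv 1 (G 1) - pderiv 1 (G 0) * pderiv 0 (G 1) = 1)
    (hFG : ∀ p : Fin 2 → ℂ, p 0 * p 1 = 0 → ∀ i, eval p (F i) = eval p (G i))
    (φ : RatFun →ₐ[ℂ] RatFun)
    (hφ : ∀ i, φ (algebraMap (MvPolynomial (Fin 2) ℂ) RatFun (G i)) =
      algebraMap (MvPolynomial (Fin 2) ℂ) RatFun (F i))
    (h0 : ∀ i, ∃ a b : MvPolynomial (Fin 2) ℂ, eval 0 a = 0 ∧ eval 0 b ≠ 0 ∧
      φ (algebraMap (MvPolynomial (Fin 2) ℂ) RatFun (X i)) *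
        algebraMap (MvPolynomial (Fin 2) ℂ) RatFun b =
          algebraMap (MvPolynomial (Fin 2) ℂ) RatFun a)
    (hφs : Function.Surjective φ ∨
      ∀ π : MvPolynomial (Fin 2) ℂ, Irreducible π → ∀ s : Fin 2,
        MapsIntoAxis (fun i => φ (algebraMap (MvPolynomial (Fin 2) ℂ) RatFun (X i))) π s →
          X 0 ∣ π ∨ X 1 ∣ π) :
    (∀ h : RatFun, φ h = h) ∧ F = G := by
  have hcr : ∀ i, F i - G i ∈ Ideal.span {(X 0 * X 1 : MvPolynomial (Fin 2) ℂ)} := by
    intro i
    apply KC2.mem_cross
    intro m hm
    rw [coeff_sub, KellerCross.coeff_eq_of_cross (G i) (F i) (fun v hv => hFG v hv i) m hm, sub_self]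
  have hS : KBir.Setup φ := by
    refine KBir.setup_of_local φ F G hF hG hφ hcr fun i => ?_
    obtain ⟨a, b, ha, hb, e⟩ := h0 i
    have hev : ∀ p : MvPolynomial (Fin 2) ℂ, eval 0 p = constantCoeff p := by
      intro p; rw [constantCoeff_eq, eval_zero]; rfl
    exact ⟨a, b, by rw [← hev]; exact ha, by rw [← hev]; exact hb, e⟩
  have hfix : ∀ i, φ (KBir.io (X i)) = KBir.io (X i) := by
    refine KBir.rational hS F G hG hφ ?_
    intro π hπ h0' h1' s t hst hv hr
    rcases hφs with hsurj | hN
    · refine hS.no_van hsurj hπ hst ?_ hv hr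
      fin_cases s
      · exact h0'
      · exact h1'
    · have hts : t = s + 1 := by
        revert hst; fin_cases s <;> fin_cases t <;> simp
      subst hts
      rcases hN π hπ.irreducible s ⟨(KBir.van_iff hπ _).1 hv, hr⟩ with h | h
      · exact h0' h
      · exact h1' h
  have hpoly : ∀ P : MvPolynomial (Fin 2) ℂ, φ (KBir.io P) = KBir.io P := by
    intro P
    have : (φ.comp KBir.io) = KBir.io := by
      apply MvPolynomial.algHom_ext; intro i; exact hfix i
    exact DFunLike.congr_fun this P
  refine ⟨fun h => ?_, ?_⟩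
  · obtain ⟨a, b, hb, e⟩ := KBir.exists_frac h
    have h1 := congrArg φ e
    rw [map_mul, hpoly, hpoly, ← e] at h1
    exact mul_right_cancel₀ (KBir.io_ne hb) h1
  · funext i
    apply KBir.io_inj
    rw [← hpoly (G i)]
    exact (hφ i).symm

end Pool.Agent.Results.MP_631557_ag.BirationalRigidity
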