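import Pool.Agent.KellerCross.Final

/-!
# Keller maps with prescribed values on the coordinate cross

For every polynomial map `F = (F₁, F₂)` of `ℂ²` and every `d` there are only finitely many Keller
maps of degree at most `d` which agree with `F` on `{xy = 0}`; in particular at most countably many
Keller maps agree with `F` on the cross.
-/

set_option autoImplicit false

open MvPolynomial

theorem Pool.Agent.Results.MP_631557_ag.FiniteFibres.result
    (F₁ F₂ : MvPolynomial (Fin 2) ℂ) :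
    (∀ d : ℕ, {G : MvPolynomial (Fin 2) ℂ × MvPolynomial (Fin 2) ℂ |
        G.1.totalDegree ≤ d ∧ G.2.totalDegree ≤ d ∧
        pderiv 0 G.1 * pderiv 1 G.2 - pderiv 1 G.1 * pderiv 0 G.2 = 1 ∧
        ∀ v : Fin 2 → ℂ, v 0 * v 1 = 0 →
          eval v G.1 = eval v F₁ ∧ eval v G.2 = eval v F₂}.Finite) ∧
    {G : MvPolynomial (Fin 2) ℂ × MvPolynomial (Fin 2) ℂ |
        pderiv 0 G.1 * pderiv 1 G.2 - pderiv 1 G.1 * pderiv 0 G.2 = 1 ∧
        ∀ v : Fin 2 → ℂ, v 0 * v 1 = 0 →
          eval v G.1 = eval v F₁ ∧ eval v G.2 = eval v F₂}.Countable := by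
  refine ⟨fun d => Pool.Agent.KellerCross.finite_keller F₁ F₂ d, ?_⟩
  refine (Set.countable_iUnion (fun d : ℕ =>
    (Pool.Agent.KellerCross.finite_keller F₁ F₂ d).countable)).mono ?_
  rintro G ⟨h1, h2⟩
  rw [Set.mem_iUnion]
  exact ⟨max G.1.totalDegree G.2.totalDegree, le_max_left _ _, le_max_right _ _, h1, h2⟩
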