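import Pool.Agent.KXS.LinesG

/-!
# The lines on which two distinct Keller maps agree

Let `F ≠ G` be Keller maps of `ℂ²` and `L` a set of lines on each of which `F = G`, not all of them
parallel.  Then there is a line `ℓ₀` in `L` such that all the other lines of `L` are parallel to each
other and not to `ℓ₀`.  So two Keller maps are equal if they agree on three pairwise non-parallel
lines, or on two pairs of parallel lines of different directions.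
-/

set_option autoImplicit false

open MvPolynomial Pool.Agent.KXS

theorem Pool.Agent.Results.MP_631557_ag.Lines.result
    (F₁ F₂ G₁ G₂ : MvPolynomial (Fin 2) ℂ)
    (hF : pderiv 0 F₁ * pderiv 1 F₂ - pderiv 1 F₁ * pderiv 0 F₂ = 1)
    (hG : pderiv 0 G₁ * pderiv 1 G₂ - pderiv 1 G₁ * pderiv 0 G₂ = 1)
    (hne : ¬ (F₁ = G₁ ∧ F₂ = G₂)) (L : Set (AffineSubspace ℂ (Fin 2 → ℂ)))
    (hL : ∀ l ∈ L, Module.finrank ℂ l.direction = 1 ∧
      ∀ v ∈ l, eval v F₁ = eval v G₁ ∧ eval v F₂ = eval v G₂)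
    (hnp : ∃ l ∈ L, ∃ l' ∈ L, ¬ AffineSubspace.Parallel l l') :
    ∃ l₀ ∈ L, ∀ l ∈ L, ∀ l' ∈ L, l ≠ l₀ → l' ≠ l₀ →
      AffineSubspace.Parallel l l' ∧ ¬ AffineSubspace.Parallel l l₀ := by
  obtain ⟨l₁, h₁, l₂, h₂, h12⟩ := hnp
  -- parametrisations
  have hpar : ∀ l ∈ L, ∃ p u : Fin 2 → ℂ, p ∈ l ∧ u ≠ 0 ∧ u ∈ l.direction ∧
      (∀ z ∈ l.direction, ∃ c : ℂ, z = c • u) := fun l hl => line_param (hL l hl).1
  have hagree : ∀ l ∈ L, ∀ p u : Fin 2 → ℂ, p ∈ l → u ≠ 0 → u ∈ l.direction →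
      Agree F₁ F₂ G₁ G₂ p u := fun l hl p u hp hu0 hu v hv =>
    (hL l hl).2 v (mem_line hp hu0 hu hv)
  -- every line is parallel to one of the two
  have hdich : ∀ l ∈ L, AffineSubspace.Parallel l l₁ ∨ AffineSubspace.Parallel l l₂ := by
    intro l hl
    by_contra hcon
    push Not at hcon
    obtain ⟨p₁, u₁, hp₁, hu₁0, hu₁, ha₁⟩ := hpar l₁ h₁
    obtain ⟨p₂, u₂, hp₂, hu₂0, hu₂, ha₂⟩ := hpar l₂ h₂
    obtain ⟨p, u, hp, hu0, hu, ha⟩ := hpar l hl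
    refine hne (three_lines hF hG (p₁ := p₁) (u₁ := u₁) (p₂ := p₂) (u₂ := u₂) (p₃ := p)
      (u₃ := u) ?_ ?_ ?_ (hagree _ h₁ _ _ hp₁ hu₁0 hu₁) (hagree _ h₂ _ _ hp₂ hu₂0 hu₂)
      (hagree _ hl _ _ hp hu0 hu))
    · exact fun h => h12 (parallel_of_det hp₁ hu₁0 hu₁ ha₁ hp₂ hu₂0 hu₂ ha₂ h)
    · exact fun h => hcon.1 (parallel_of_det hp₁ hu₁0 hu₁ ha₁ hp hu0 hu ha h).symm
    · exact fun h => hcon.2 (parallel_of_det hp₂ hu₂0 hu₂ ha₂ hp hu0 hu ha h).symm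
  -- not two pairs of parallel lines
  have hpairs : ∀ l ∈ L, ∀ l' ∈ L, AffineSubspace.Parallel l l₁ → l ≠ l₁ →
      AffineSubspace.Parallel l' l₂ → l' ≠ l₂ → False := by
    intro l hl l' hl' hpl hnl hpl' hnl'
    obtain ⟨p₁, u₁, hp₁, hu₁0, hu₁, ha₁⟩ := hpar l₁ h₁
    obtain ⟨p₂, u₂, hp₂, hu₂0, hu₂, ha₂⟩ := hpar l₂ h₂
    obtain ⟨p, -, hp, -, -, -⟩ := hpar l hl
    obtain ⟨p', -, hp', -, -, -⟩ := hpar l' hl'
    refine hne (four_lines hF hG (p₁ := p₁) (p₂ := p) (u := u₁) (p₃ := p₂) (p₄ := p') (w := u₂)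
      ?_ ?_ ?_ (hagree _ h₁ _ _ hp₁ hu₁0 hu₁) (hagree _ hl _ _ hp hu₁0 ?_)
      (hagree _ h₂ _ _ hp₂ hu₂0 hu₂) (hagree _ hl' _ _ hp' hu₂0 ?_))
    · exact fun h => h12 (parallel_of_det hp₁ hu₁0 hu₁ ha₁ hp₂ hu₂0 hu₂ ha₂ h)
    · exact det_of_parallel_ne hp₁ hu₁0 hu₁ hp hpl.symm hnl.symm
    · exact det_of_parallel_ne hp₂ hu₂0 hu₂ hp' hpl'.symm hnl'.symm
    · rw [hpl.direction_eq]
      exact hu₁
    · rw [hpl'.direction_eq]
      exact hu₂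
  by_cases hA : ∃ l ∈ L, AffineSubspace.Parallel l l₁ ∧ l ≠ l₁
  · obtain ⟨l, hl, hpl, hnl⟩ := hA
    refine ⟨l₂, h₂, ?_⟩
    have key : ∀ l' ∈ L, l' ≠ l₂ → AffineSubspace.Parallel l' l₁ := by
      intro l' hl' hne'
      rcases hdich l' hl' with h | h
      · exact h
      · exact (hpairs l hl l' hl' hpl hnl h hne').elim
    intro m hm m' hm' hmne hmne'
    have k1 := key m hm hmne
    have k2 := key m' hm' hmne'
    exact ⟨k1.trans k2.symm, fun h => h12 (k1.symm.trans h)⟩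
  · refine ⟨l₁, h₁, ?_⟩
    have key : ∀ l' ∈ L, l' ≠ l₁ → AffineSubspace.Parallel l' l₂ := by
      intro l' hl' hne'
      rcases hdich l' hl' with h | h
      · exact (hA ⟨l', hl', h, hne'⟩).elim
      · exact h
    intro m hm m' hm' hmne hmne'
    have k1 := key m hm hmne
    have k2 := key m' hm' hmne'
    exact ⟨k1.trans k2.symm, fun h => h12 (h.symm.trans k1)⟩
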