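import Pool.Agent.KXS.Axes

/-!
# Keller maps of the plane that agree on the cross: slopes at the two axes

Let `F`, `G` be Keller maps of `ℂ²` that agree on `{xy = 0}`.  If the pair has slope at most `K`
along the `x`-axis, and either `K ≤ 0`, or the pair has slope at most `L ≥ 0` along the `y`-axis
with `K L < 1` or `K = L = 1`, then `F = G`.
-/

set_option autoImplicit false

open MvPolynomial

namespace Pool.Agent.Results.MP_631557_ag.NewtonSlopes

/-- `f` contains the monomial `X s ^ m`, `m ≥ 1`, and every monomial of `f` has its degree in the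
variable `s` at most `m` plus `K` times its degree in the variable `t`. -/
def SlopeAt (s t : Fin 2) (m : ℕ) (K : ℝ) (f : MvPolynomial (Fin 2) ℂ) : Prop :=
  1 ≤ m ∧ coeff (Finsupp.single s m) f ≠ 0 ∧ ∀ e ∈ f.support, (e s : ℝ) ≤ m + K * e t

/-- The pair `F`, `G` has slope at most `K` along the axis on which the variable `s` runs (and
`t` vanishes): this holds for `S(F)` and `S(G)` for one polynomial `S` in two variables and one
`m`, or it holds for some component of `F` and for some component of `G`. -/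
def AxisSlope (s t : Fin 2) (K : ℝ) (F G : Fin 2 → MvPolynomial (Fin 2) ℂ) : Prop :=
  (∃ (S : MvPolynomial (Fin 2) ℂ) (m : ℕ), SlopeAt s t m K (aeval F S) ∧
    SlopeAt s t m K (aeval G S)) ∨
  (∃ (k l : Fin 2) (m n : ℕ), SlopeAt s t m K (F k) ∧ SlopeAt s t n K (G l))

theorem result (F G : Fin 2 → MvPolynomial (Fin 2) ℂ)
    (hF : pderiv 0 (F 0) * pderiv 1 (F 1) - pderiv 1 (F 0) * pderiv 0 (F 1) = 1)
    (hG : pderiv 0 (G 0) * pderiv 1 (G 1) - pderiv 1 (G 0) * pderiv 0 (G 1) = 1)
    (hFG : ∀ p : Fin 2 → ℂ, p 0 * p 1 = 0 → ∀ i, eval p (F i) = eval p (G i))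
    (K : ℝ) (hx : AxisSlope 0 1 K F G)
    (hy : K ≤ 0 ∨ ∃ L : ℝ, 0 ≤ L ∧ (K * L < 1 ∨ (K = 1 ∧ L = 1)) ∧ AxisSlope 1 0 L F G) :
    F = G := by
  have hd : ∀ i, (X 0 * X 1 : MvPolynomial (Fin 2) ℂ) ∣ F i - G i := by
    intro i
    rw [Pool.Agent.KXS.cross_dvd_iff]
    intro s hs
    rw [coeff_sub, sub_eq_zero]
    exact Pool.Agent.KellerCross.coeff_eq_of_cross (G i) (F i) (fun v hv => hFG v hv i) s hs
  exact Pool.Agent.KXS.slope_thm hF hG hd hx hy

end Pool.Agent.Results.MP_631557_ag.NewtonSlopes
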